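import Pool.Agent.helper17.LQ.SpecQ

open MeasureTheory Set

set_option autoImplicit false

namespace Pool.Agent.LP

noncomputable section

theorem QKJ_bd (X t u : ℝ) (hX : |X| ≤ 1 / 16) (hu : u ∈ Icc (-2 : ℝ) 2) :
    ‖ee (t * mm X u) * (md X u : ℂ)‖ ≤ 2 := by
  have h1 : ‖ee (t * mm X u)‖ = 1 := by
    unfold ee
    rw [Complex.norm_exp_ofReal_mul_I]
  rw [norm_mul, h1, one_mul, Complex.norm_real, Real.norm_eq_abs]
  have hab : |X * u| ≤ 1 / 8 := by
    rw [abs_mul]
    have h2 : |u| ≤ 2 := abs_le.2 ⟨hu.1, hu.2⟩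
    calc |X| * |u| ≤ (1 / 16) * 2 := mul_le_mul hX h2 (abs_nonneg _) (by norm_num)
      _ = 1 / 8 := by norm_num
  have h3 := (abs_le.1 hab).2
  have h4 : (7 / 8 : ℝ) ≤ 1 - X * u := by linarith
  have h5 : (49 / 64 : ℝ) ≤ (1 - X * u) ^ 2 := by nlinarith
  have h6 : 0 < (1 - X * u) ^ 2 := by linarith
  unfold md
  rw [abs_of_nonneg (by positivity), div_le_iff₀ h6]
  linarith

theorem QKJ_meas (X t : ℝ) : Measurable fun u : ℝ => ee (t * mm X u) * (md X u : ℂ) := by
  unfold ee mm md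
  refine Measurable.mul ?_ ?_
  · refine Complex.measurable_exp.comp ?_
    refine Measurable.mul_const ?_ _
    refine Complex.measurable_ofReal.comp ?_
    exact (measurable_id.div (measurable_const.sub (measurable_const.mul measurable_id))).const_mul t
  · refine Complex.measurable_ofReal.comp ?_
    exact measurable_const.div ((measurable_const.sub (measurable_const.mul measurable_id)).pow_const 2)

theorem QKJ_fin (U : Set ℝ) (x y : ℝ) : volume (U ∩ Icc x y) < ⊤ :=
  lt_of_le_of_lt (measure_mono inter_subset_right) measure_Icc_lt_top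

theorem QKJ_int (U : Set ℝ) (X t x y : ℝ) (hm : MeasurableSet U) (hU : U ⊆ Icc (-2 : ℝ) 2) (hX : |X| ≤ 1 / 16) :
    IntegrableOn (fun u : ℝ => ee (t * mm X u) * (md X u : ℂ)) (U ∩ Icc x y) volume := by
  refine Measure.integrableOn_of_bounded (M := 2) (QKJ_fin U x y).ne (QKJ_meas X t).aestronglyMeasurable ?_
  refine (ae_restrict_iff' (hm.inter measurableSet_Icc)).2 (Filter.Eventually.of_forall ?_)
  intro u hu
  exact QKJ_bd X t u hX (hU hu.1)

theorem QKJ_xk (n k : ℕ) : xk (n + 1) (2 * k) = xk n k := by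
  unfold xk
  push_cast
  rw [pow_succ]
  have h : (2 : ℝ) ^ n ≠ 0 := by positivity
  field_simp

theorem QKJ_lt (n k : ℕ) : xk n k ≤ xk n (k + 1) := by
  unfold xk
  have h : (0 : ℝ) < 2 ^ n := by positivity
  have : 4 * (k : ℝ) / 2 ^ n ≤ 4 * ((k + 1 : ℕ) : ℝ) / 2 ^ n := by
    push_cast
    exact div_le_div_of_nonneg_right (by linarith) h.le
  linarith

theorem QKJ_proof : QKJ_stmt := by
  intro U X t hm hU hX
  refine ⟨?_, ?_, ?_⟩
  · unfold kj kk
    have h0 : xk 0 0 = -2 := by unfold xk; norm_num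
    have h1 : xk 0 (0 + 1) = 2 := by unfold xk; norm_num
    rw [h0, h1, inter_eq_left.2 hU]
  · intro n k
    unfold kj
    have e1 : xk (n + 1) (2 * k) = xk n k := QKJ_xk n k
    have e2 : xk (n + 1) (2 * k + 1 + 1) = xk n (k + 1) := by
      have := QKJ_xk n (k + 1)
      rwa [Nat.mul_add, Nat.mul_one] at this
    have l1 : xk (n + 1) (2 * k) ≤ xk (n + 1) (2 * k + 1) := QKJ_lt _ _
    have l2 : xk (n + 1) (2 * k + 1) ≤ xk (n + 1) (2 * k + 1 + 1) := QKJ_lt _ _
    rw [← e1, ← e2]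
    have hset : U ∩ Icc (xk (n + 1) (2 * k)) (xk (n + 1) (2 * k + 1 + 1)) =
        (U ∩ Icc (xk (n + 1) (2 * k)) (xk (n + 1) (2 * k + 1))) ∪ (U ∩ Icc (xk (n + 1) (2 * k + 1)) (xk (n + 1) (2 * k + 1 + 1))) := by
      rw [← inter_union_distrib_left, Icc_union_Icc_eq_Icc l1 l2]
    rw [hset]
    refine setIntegral_union₀ ?_ (hm.inter measurableSet_Icc).nullMeasurableSet (QKJ_int U X t _ _ hm hU hX) (QKJ_int U X t _ _ hm hU hX)
    refine measure_mono_null (t := {xk (n + 1) (2 * k + 1)}) ?_ (measure_singleton _)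
    intro u hu
    exact le_antisymm hu.1.2.2 hu.2.2.1
  · intro n k
    unfold kj
    exact norm_setIntegral_le_of_norm_le_const (QKJ_fin U _ _) (fun u hu => QKJ_bd X t u hX (hU hu.1))

end

end Pool.Agent.LP
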