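import Pool.Agent.helper57.LQ.SpecB
import Pool.Agent.helper81.PMApprox

/-! Row lq:ME7 (MP_ebc808_nt): the modular equation of degree 7. -/

set_option autoImplicit false

open Finset PowerSeries

noncomputable section

namespace Pool.Agent.LQ

open Pool.Agent.helper81 (Cg cg_iff)

/-! ### Power series -/

/-- `P(x^24)` -/
def ME7_A : FF := PowerSeries.expand 24 (by norm_num) Pool.Agent.helper81.PP

/-- `P(x^168)` -/
def ME7_B : FF := PowerSeries.expand 168 (by norm_num) Pool.Agent.helper81.PP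

/-- `E(x^24)` -/
def ME7_E : FF := PowerSeries.expand 24 (by norm_num) Pool.Agent.helper81.EE

/-- `E(x^168)` -/
def ME7_E' : FF := PowerSeries.expand 168 (by norm_num) Pool.Agent.helper81.EE

theorem ME7_AE : ME7_A * ME7_E = 1 := by
  unfold ME7_A ME7_E
  rw [← map_mul, Pool.Agent.helper81.PP_mul_EE, map_one]

theorem ME7_BE : ME7_B * ME7_E' = 1 := by
  unfold ME7_B ME7_E'
  rw [← map_mul, Pool.Agent.helper81.PP_mul_EE, map_one]

theorem ME7_cP : Cg 1 (Pool.Agent.helper81.PP : FF) 1 := by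
  rw [cg_iff]
  intro n hn
  have h0 : n = 0 := by omega
  subst h0
  have h := congrArg (coeff 0) Pool.Agent.helper81.PP_mul_EE
  rw [coeff_zero_eq_constantCoeff_apply, map_mul, ← coeff_zero_eq_constantCoeff_apply,
    ← coeff_zero_eq_constantCoeff_apply, Pool.Agent.helper81.EE0, mul_one] at h
  rw [h]

theorem ME7_cE : Cg 3 (Pool.Agent.helper81.EE : FF) (1 + X + X ^ 2) := by
  rw [cg_iff]
  intro n hn
  have h3 : n = 0 ∨ n = 1 ∨ n = 2 := by omega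
  rcases h3 with rfl | rfl | rfl
  · rw [Pool.Agent.helper81.EE0]
    simp [coeff_X, coeff_X_pow]
  · rw [Pool.Agent.helper81.EE1]
    simp [coeff_X, coeff_X_pow, coeff_one]
  · rw [Pool.Agent.helper81.EE2]
    simp [coeff_X, coeff_X_pow, coeff_one]

theorem ME7_cB : Cg 57 ME7_B 1 := by
  have h := ME7_cP.expand 168 (by norm_num)
  rw [map_one] at h
  exact h.mono (by norm_num)

theorem ME7_cA4 : Cg 57 (ME7_A ^ 4) 1 := by
  have h1 : ME7_A ^ 4 = PowerSeries.expand 96 (by norm_num) (Pool.Agent.helper81.PP : FF) := by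
    have h2 := Pool.Agent.helper12.PE.pow_eq_expand ME7_A 2
    have h3 : (2 : ℕ) ^ 2 = 4 := by norm_num
    simp only [h3] at h2
    rw [h2]
    ext n
    unfold ME7_A
    rw [coeff_expand, coeff_expand, coeff_expand]
    by_cases h4 : 4 ∣ n
    · obtain ⟨k, rfl⟩ := h4
      rw [if_pos (Dvd.intro k rfl), Nat.mul_div_cancel_left k (by norm_num)]
      by_cases h5 : 24 ∣ k
      · obtain ⟨j, rfl⟩ := h5
        have e : 4 * (24 * j) / 96 = j := by omega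
        rw [if_pos (Dvd.intro j rfl), if_pos ⟨j, by ring⟩, Nat.mul_div_cancel_left j (by norm_num),
          e]
      · rw [if_neg h5, if_neg (by omega)]
    · rw [if_neg h4, if_neg (by omega)]
  rw [h1]
  have h := ME7_cP.expand 96 (by norm_num)
  rw [map_one] at h
  exact h.mono (by norm_num)

theorem ME7_cE24 : Cg 57 ME7_E (1 + X ^ 24 + X ^ 48) := by
  have h := ME7_cE.expand 24 (by norm_num)
  have h1 : PowerSeries.expand 24 (by norm_num) (1 + X + X ^ 2 : FF) = 1 + X ^ 24 + X ^ 48 := by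
    rw [map_add, map_add, map_one, map_pow, PowerSeries.expand_X, ← pow_mul]
  rw [h1] at h
  exact h.mono (by norm_num)

/-- the sum multiplied by `x^56` -/
def ME7_G : FF :=
  ME7_B ^ 8 + X ^ 48 * ME7_A ^ 8 + X ^ 24 * (ME7_A ^ 4 * ME7_B ^ 4) + ME7_A ^ 7 * ME7_B ^ 7

theorem ME7_G_dvd : Cg 57 ME7_G 0 := by
  have hA8 : Cg 57 (ME7_A ^ 8) 1 := by
    have h := ME7_cA4.pow 2
    rw [one_pow, ← pow_mul] at h
    exact h
  have hA7 : Cg 57 (ME7_A ^ 7) (1 + X ^ 24 + X ^ 48) := by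
    have h1 : ME7_A ^ 7 = ME7_A ^ 8 * ME7_E := by
      rw [pow_succ ME7_A 7, mul_assoc, ME7_AE, mul_one]
    rw [h1]
    have h2 := hA8.mul ME7_cE24
    rw [one_mul] at h2
    exact h2
  have hB : ∀ n : ℕ, Cg 57 (ME7_B ^ n) 1 := by
    intro n
    have h := ME7_cB.pow n
    rw [one_pow] at h
    exact h
  have h1 : Cg 57 (X ^ 48 * ME7_A ^ 8) (X ^ 48 * 1) := (Cg.refl 57 _).mul hA8
  have h2 : Cg 57 (X ^ 24 * (ME7_A ^ 4 * ME7_B ^ 4)) (X ^ 24 * (1 * 1)) :=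
    (Cg.refl 57 _).mul (ME7_cA4.mul (hB 4))
  have h3 : Cg 57 (ME7_A ^ 7 * ME7_B ^ 7) ((1 + X ^ 24 + X ^ 48) * 1) := hA7.mul (hB 7)
  have h4 := (((hB 8).add h1).add h2).add h3
  have h5 : (1 : FF) + X ^ 48 * 1 + X ^ 24 * (1 * 1) + (1 + X ^ 24 + X ^ 48) * 1 = 0 := by
    have h6 : (1 : FF) + X ^ 48 * 1 + X ^ 24 * (1 * 1) + (1 + X ^ 24 + X ^ 48) * 1 =
        (1 + X ^ 24 + X ^ 48) + (1 + X ^ 24 + X ^ 48) := by ring
    rw [h6]
    exact add_self_FF _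
  rw [h5] at h4
  exact h4

/-! ### Laurent series -/

/-- the variable and its inverse -/
def ME7_s : Pool.Agent.EP.KK := HahnSeries.single (1 : ℤ) (1 : ZMod 2)

def ME7_s' : Pool.Agent.EP.KK := HahnSeries.single (-1 : ℤ) (1 : ZMod 2)

theorem ME7_ss : ME7_s' * ME7_s = 1 := by
  unfold ME7_s' ME7_s
  rw [HahnSeries.single_mul_single]
  simp

/-- coefficients -/
theorem ME7_coeff (k : ℕ) (f : FF) (M : ℤ) :
    (ME7_s' ^ k * HahnSeries.ofPowerSeries ℤ (ZMod 2) f).coeff M =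
      if M + k < 0 then 0 else coeff (M + k).natAbs f := by
  have h1 : ME7_s' ^ k = HahnSeries.single (-(k : ℤ)) (1 : ZMod 2) := by
    unfold ME7_s'
    rw [HahnSeries.single_pow]
    simp
  have h3 := HahnSeries.coeff_single_mul_add (r := (1 : ZMod 2))
      (x := HahnSeries.ofPowerSeries ℤ (ZMod 2) f) (a := M + k) (b := -(k : ℤ))
  rw [one_mul, show M + (k : ℤ) + -(k : ℤ) = M by ring] at h3
  rw [h1, h3, PowerSeries.coeff_coe]

theorem ME7_ww : Pool.Agent.EP.ww = ME7_s' * HahnSeries.ofPowerSeries ℤ (ZMod 2) ME7_A := rfl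

/-- `ww(x^7)` -/
def ME7_w7 : Pool.Agent.EP.KK := ME7_s' ^ 7 * HahnSeries.ofPowerSeries ℤ (ZMod 2) ME7_B

theorem ME7_w7_coeff (M : ℤ) : ME7_w7.coeff M =
    if (7 : ℤ) ∣ M then Pool.Agent.EP.ww.coeff (M / 7) else 0 := by
  have h2 : Pool.Agent.EP.ww = ME7_s' ^ 1 * HahnSeries.ofPowerSeries ℤ (ZMod 2) ME7_A := by
    rw [pow_one]
    exact ME7_ww
  unfold ME7_w7
  rw [h2, ME7_coeff, ME7_coeff]
  unfold ME7_A ME7_B
  rw [coeff_expand, coeff_expand]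
  by_cases h7 : (7 : ℤ) ∣ M
  · obtain ⟨N, rfl⟩ := h7
    rw [if_pos (Dvd.intro N rfl), Int.mul_ediv_cancel_left N (by norm_num)]
    by_cases hN : N + ((1 : ℕ) : ℤ) < 0
    · rw [if_pos hN, if_pos (by push_cast at hN ⊢; omega)]
    · rw [if_neg hN, if_neg (by push_cast at hN ⊢; omega)]
      have e : (7 * N + ((7 : ℕ) : ℤ)).natAbs = 7 * (N + ((1 : ℕ) : ℤ)).natAbs := by
        push_cast at hN ⊢
        omega
      rw [e]
      generalize (N + ((1 : ℕ) : ℤ)).natAbs = n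
      by_cases h24 : 24 ∣ n
      · have e2 : 7 * n / 168 = n / 24 := by omega
        rw [if_pos h24, if_pos (by omega), e2]
      · rw [if_neg h24, if_neg (by omega)]
  · rw [if_neg h7]
    by_cases hN : M + ((7 : ℕ) : ℤ) < 0
    · rw [if_pos hN]
    · rw [if_neg hN, if_neg]
      intro h168
      apply h7
      push_cast at hN h168
      omega

/-- the coefficients of the symmetric polynomial -/
def ME7_c (i j : ℕ) : ZMod 2 :=
  if (i = 8 ∧ j = 0) ∨ (i = 0 ∧ j = 8) ∨ (i = 4 ∧ j = 4) ∨ (i = 7 ∧ j = 7) then 1 else 0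

theorem ME7_c_symm (i j : ℕ) : ME7_c i j = ME7_c j i := by
  unfold ME7_c
  by_cases h : (i = 8 ∧ j = 0) ∨ (i = 0 ∧ j = 8) ∨ (i = 4 ∧ j = 4) ∨ (i = 7 ∧ j = 7)
  · rw [if_pos h, if_pos (by omega)]
  · rw [if_neg h, if_neg (by omega)]

theorem ME7_sum (y z : Pool.Agent.EP.KK) :
    ∑ i ∈ range 9, ∑ j ∈ range 9, ME7_c i j • (y ^ i * z ^ j) =
      z ^ 8 + y ^ 8 + y ^ 4 * z ^ 4 + y ^ 7 * z ^ 7 := by
  have h : ∀ i j : ℕ, i < 9 → j < 9 → ME7_c i j • (y ^ i * z ^ j) =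
      (if i = 8 ∧ j = 0 then y ^ 8 else 0) + (if i = 0 ∧ j = 8 then z ^ 8 else 0) +
      (if i = 4 ∧ j = 4 then y ^ 4 * z ^ 4 else 0) +
      (if i = 7 ∧ j = 7 then y ^ 7 * z ^ 7 else 0) := by
    intro i j hi hj
    unfold ME7_c
    by_cases h1 : i = 8 ∧ j = 0
    · obtain ⟨rfl, rfl⟩ := h1
      simp
    by_cases h2 : i = 0 ∧ j = 8
    · obtain ⟨rfl, rfl⟩ := h2
      simp
    by_cases h3 : i = 4 ∧ j = 4
    · obtain ⟨rfl, rfl⟩ := h3
      simp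
    by_cases h4 : i = 7 ∧ j = 7
    · obtain ⟨rfl, rfl⟩ := h4
      simp
    rw [if_neg h1, if_neg h2, if_neg h3, if_neg h4, if_neg (by tauto), zero_smul]
    simp
  have h' : ∀ i ∈ range 9, ∑ j ∈ range 9, ME7_c i j • (y ^ i * z ^ j) =
      ∑ j ∈ range 9, ((if i = 8 ∧ j = 0 then y ^ 8 else 0) + (if i = 0 ∧ j = 8 then z ^ 8 else 0) +
      (if i = 4 ∧ j = 4 then y ^ 4 * z ^ 4 else 0) +
      (if i = 7 ∧ j = 7 then y ^ 7 * z ^ 7 else 0)) := by
    intro i hi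
    exact Finset.sum_congr rfl fun j hj => h i j (mem_range.1 hi) (mem_range.1 hj)
  rw [Finset.sum_congr rfl h']
  simp [Finset.sum_range_succ]
  ring

/-- the sum as `x^(-56)` times a power series -/
theorem ME7_F : ME7_w7 ^ 8 + Pool.Agent.EP.ww ^ 8 + Pool.Agent.EP.ww ^ 4 * ME7_w7 ^ 4 +
      Pool.Agent.EP.ww ^ 7 * ME7_w7 ^ 7 =
    ME7_s' ^ 56 * HahnSeries.ofPowerSeries ℤ (ZMod 2) ME7_G := by
  have hX : HahnSeries.ofPowerSeries ℤ (ZMod 2) (X : FF) = ME7_s :=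
    HahnSeries.ofPowerSeries_X
  have hs : ∀ n : ℕ, ME7_s' ^ n * ME7_s ^ n = 1 := by
    intro n
    rw [← mul_pow, ME7_ss, one_pow]
  rw [ME7_ww]
  unfold ME7_w7 ME7_G
  simp only [map_add, map_mul, map_pow, hX]
  generalize HahnSeries.ofPowerSeries ℤ (ZMod 2) ME7_A = p
  generalize HahnSeries.ofPowerSeries ℤ (ZMod 2) ME7_B = r
  have e1 : ME7_s' ^ 56 * ME7_s ^ 48 = ME7_s' ^ 8 := by
    calc ME7_s' ^ 56 * ME7_s ^ 48 = ME7_s' ^ 8 * (ME7_s' ^ 48 * ME7_s ^ 48) := by ring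
      _ = _ := by rw [hs, mul_one]
  have e2 : ME7_s' ^ 56 * ME7_s ^ 24 = ME7_s' ^ 32 := by
    calc ME7_s' ^ 56 * ME7_s ^ 24 = ME7_s' ^ 32 * (ME7_s' ^ 24 * ME7_s ^ 24) := by ring
      _ = _ := by rw [hs, mul_one]
  calc (ME7_s' ^ 7 * r) ^ 8 + (ME7_s' * p) ^ 8 + (ME7_s' * p) ^ 4 * (ME7_s' ^ 7 * r) ^ 4 +
        (ME7_s' * p) ^ 7 * (ME7_s' ^ 7 * r) ^ 7
      = ME7_s' ^ 56 * r ^ 8 + ME7_s' ^ 8 * p ^ 8 + ME7_s' ^ 32 * (p ^ 4 * r ^ 4) +
        ME7_s' ^ 56 * (p ^ 7 * r ^ 7) := by ring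
    _ = ME7_s' ^ 56 * r ^ 8 + (ME7_s' ^ 56 * ME7_s ^ 48) * p ^ 8 +
        (ME7_s' ^ 56 * ME7_s ^ 24) * (p ^ 4 * r ^ 4) + ME7_s' ^ 56 * (p ^ 7 * r ^ 7) := by
        rw [e1, e2]
    _ = _ := by ring

theorem ME7_comp (f : FF) : PowerSeries.expand 7 (by norm_num)
    (PowerSeries.expand 24 (by norm_num) f) = PowerSeries.expand 168 (by norm_num) f := by
  ext n
  rw [coeff_expand, coeff_expand, coeff_expand]
  by_cases h4 : 7 ∣ n
  · obtain ⟨k, rfl⟩ := h4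
    rw [if_pos (Dvd.intro k rfl), Nat.mul_div_cancel_left k (by norm_num)]
    by_cases h5 : 24 ∣ k
    · obtain ⟨j, rfl⟩ := h5
      have e : 7 * (24 * j) / 168 = j := by omega
      rw [if_pos (Dvd.intro j rfl), if_pos ⟨j, by ring⟩, Nat.mul_div_cancel_left j (by norm_num),
        e]
    · rw [if_neg h5, if_neg (by omega)]
  · rw [if_neg h4, if_neg (by omega)]

theorem ME7_hex : ex 7 tt = X ^ 7 * ME7_E' := by
  have h1 : ex 7 tt = PowerSeries.expand 7 (by norm_num) tt := ex_eq (by norm_num) tt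
  have h2 : PowerSeries.expand 7 (by norm_num) tt = PowerSeries.expand 7 (by norm_num) (X : FF) *
      PowerSeries.expand 7 (by norm_num) (PowerSeries.expand 24 (by norm_num)
        Pool.Agent.helper81.EE) := by
    unfold tt
    exact map_mul _ _ _
  rw [h1, h2, ME7_comp, PowerSeries.expand_X]
  rfl

theorem ME7 (hMEN : MEN_stmt) (hTGR : TGR_stmt) (hEXP : EXP_stmt)
    (hWM : Pool.Agent.EP.WM_stmt) : ME7_stmt := by
  obtain ⟨-, -, -, -, -, hv⟩ := hTGR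
  have hF : ME7_w7 ^ 8 + Pool.Agent.EP.ww ^ 8 + Pool.Agent.EP.ww ^ 4 * ME7_w7 ^ 4 +
      Pool.Agent.EP.ww ^ 7 * ME7_w7 ^ 7 = 0 := by
    have h := hMEN 7 9 ME7_c (by norm_num) (by norm_num) ME7_c_symm ME7_w7
      (fun M => ME7_w7_coeff M) ?_
    · rw [ME7_sum] at h
      exact h
    · intro M hM
      rw [ME7_sum, ME7_F, ME7_coeff]
      split_ifs with h0
      · rfl
      · have h1 := ME7_G_dvd.coeff_eq (n := (M + ((56 : ℕ) : ℤ)).natAbs)
          (by push_cast at h0 ⊢; omega)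
        rw [h1, map_zero]
  -- the inverse elements
  have h1 : Pool.Agent.EP.ww * Pool.Agent.EP.vvx = 1 := hWM.2
  have hex := ME7_hex
  have h2 : ME7_w7 * HahnSeries.ofPowerSeries ℤ (ZMod 2) (ex 7 tt) = 1 := by
    have hX : HahnSeries.ofPowerSeries ℤ (ZMod 2) (X : FF) = ME7_s :=
      HahnSeries.ofPowerSeries_X
    have hBE : HahnSeries.ofPowerSeries ℤ (ZMod 2) ME7_B *
        HahnSeries.ofPowerSeries ℤ (ZMod 2) ME7_E' = 1 := by
      rw [← map_mul, ME7_BE, map_one]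
    have hss := ME7_ss
    rw [hex, map_mul, map_pow, hX]
    unfold ME7_w7
    generalize HahnSeries.ofPowerSeries ℤ (ZMod 2) ME7_B = p at hBE ⊢
    generalize HahnSeries.ofPowerSeries ℤ (ZMod 2) ME7_E' = r at hBE ⊢
    generalize ME7_s = a at hss ⊢
    generalize ME7_s' = b at hss ⊢
    calc b ^ 7 * p * (a ^ 7 * r) = (b * a) ^ 7 * (p * r) := by ring
      _ = 1 := by rw [hss, hBE, one_pow, one_mul]
  have hinj : Function.Injective (HahnSeries.ofPowerSeries ℤ (ZMod 2)) :=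
    HahnSeries.ofPowerSeries_injective
  unfold ME7_stmt
  apply hinj
  simp only [map_add, map_mul, map_pow]
  rw [hv]
  generalize HahnSeries.ofPowerSeries ℤ (ZMod 2) (ex 7 tt) = v7 at h2 ⊢
  generalize Pool.Agent.EP.vvx = v at h1 ⊢
  generalize Pool.Agent.EP.ww = w at h1 hF
  generalize ME7_w7 = w7 at h2 hF
  have key : v ^ 8 + v7 ^ 8 + v ^ 4 * v7 ^ 4 + v * v7 = 0 := by
    have h3 : v ^ 8 + v7 ^ 8 + v ^ 4 * v7 ^ 4 + v * v7 =
        (w7 ^ 8 + w ^ 8 + w ^ 4 * w7 ^ 4 + w ^ 7 * w7 ^ 7) * (v ^ 8 * v7 ^ 8) := by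
      have a1 : ∀ n : ℕ, w ^ n * v ^ n = 1 := fun n => by rw [← mul_pow, h1, one_pow]
      have a2 : ∀ n : ℕ, w7 ^ n * v7 ^ n = 1 := fun n => by rw [← mul_pow, h2, one_pow]
      calc v ^ 8 + v7 ^ 8 + v ^ 4 * v7 ^ 4 + v * v7
          = (w7 ^ 8 * v7 ^ 8) * v ^ 8 + (w ^ 8 * v ^ 8) * v7 ^ 8 +
            (w ^ 4 * v ^ 4) * (w7 ^ 4 * v7 ^ 4) * (v ^ 4 * v7 ^ 4) +
            (w ^ 7 * v ^ 7) * (w7 ^ 7 * v7 ^ 7) * (v * v7) := by
            rw [a1, a2, a1, a2, a1, a2]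
            ring
        _ = _ := by ring
    rw [h3, hF, zero_mul]
  have h2' : ∀ z : Pool.Agent.EP.KK, z + z = 0 := by
    intro z
    ext M
    rw [HahnSeries.coeff_add]
    exact CharTwo.add_self_eq_zero _
  have h4 : v ^ 8 + v7 ^ 8 = -(v ^ 4 * v7 ^ 4 + v * v7) := by
    rw [eq_neg_iff_add_eq_zero, ← key]
    ring
  rw [h4, neg_eq_iff_add_eq_zero]
  exact h2' _

end Pool.Agent.LQ
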